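import Pool.Agent.Helper209.PL.Main12

/-!
# Positive-density Lieb-Thirring inequality in one dimension, every `γ > 1`, all real `V ∈ L²`

For real `V ∈ L²(ℝ)`, `H = -d²/dx² + V` is the self-adjoint operator on `L²(ℝ)` whose resolvent
`R = (H + c)⁻¹ ≥ 0`, `c` large, satisfies `R (-χ'' + (V + c) χ) = χ` for all Schwartz functions `χ`
(this determines the bounded operator `R`), and `(H - μ)_-^γ` is a continuous function of `R`.
-/

set_option autoImplicit false

namespace Pool.Agent.Results.MP_1963ae_mp.PositiveDensityLTGeneral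

open MeasureTheory Set Filter
open scoped SchwartzMap InnerProductSpace

/-! ### Bounded operators on a Hilbert space -/

section Abstract

variable {E : Type} [NormedAddCommGroup E] [InnerProductSpace ℂ E] [CompleteSpace E]

/-- Hilbert-Schmidt operators. -/
def IsHilbertSchmidt (X : E →L[ℂ] E) : Prop :=
  ∀ b : HilbertBasis ℕ ℂ E, Summable (fun i => ‖X (b i)‖ ^ 2)

/-- Trace class operators: products of two Hilbert-Schmidt operators. -/
def IsTraceClass (T : E →L[ℂ] E) : Prop :=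
  ∃ X Y : E →L[ℂ] E, IsHilbertSchmidt X ∧ IsHilbertSchmidt Y ∧
    T = (ContinuousLinearMap.adjoint X).comp Y

/-- The real number `τ` is the trace of `T`. -/
def HasTrace (T : E →L[ℂ] E) (τ : ℝ) : Prop :=
  ∀ b : HilbertBasis ℕ ℂ E, HasSum (fun i => ⟪b i, T (b i)⟫_ℂ) (τ : ℂ)

/-- `R` is self-adjoint and nonnegative. -/
def IsNonneg (R : E →L[ℂ] E) : Prop :=
  R.IsPositive

/-- The localised operator `Θ T Θ`. -/
noncomputable def localise (Θ T : E →L[ℂ] E) : E →L[ℂ] E :=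
  Θ.comp (T.comp Θ)

/-- `(H - μ)_-^s` for the self-adjoint operator `H = R⁻¹ - c`, where `R = (H + c)⁻¹ ≥ 0`, as a
continuous function of the bounded self-adjoint operator `R`: on the spectral value `h` of `H`, that
is on `r = 1 / (h + c)`, the function is `(max (μ - h) 0) ^ s`. -/
noncomputable def negPow (s μ c : ℝ) (R : E →L[ℂ] E) : E →L[ℂ] E :=
  cfc (fun r : ℝ => if 0 < r then (max (μ + c - 1 / r) 0) ^ s else 0) R

/-- The operator inside the trace, `(-Δ+V-μ)_-^γ - (-Δ-μ)_-^γ + γ B`, with `R = (-Δ+V+c)⁻¹`,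
`R₀ = (-Δ+c)⁻¹` and `B = (-Δ-μ)_-^{γ-1} V`. -/
noncomputable def inside (γ μ c : ℝ) (R R₀ B : E →L[ℂ] E) : E →L[ℂ] E :=
  negPow γ μ c R - negPow γ μ c R₀ + (γ : ℂ) • B

end Abstract

/-! ### The Hilbert space `L²(ℝ; ℂ)` and its operators -/

/-- The Hilbert space `L²(ℝ; ℂ)`, with the norm and inner product of Mathlib. -/
def L2 : Type := Lp ℂ 2 (volume : Measure ℝ)

noncomputable instance : NormedAddCommGroup L2 :=
  (inferInstance : NormedAddCommGroup (Lp ℂ 2 (volume : Measure ℝ)))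

noncomputable instance : InnerProductSpace ℂ L2 :=
  (inferInstance : InnerProductSpace ℂ (Lp ℂ 2 (volume : Measure ℝ)))

instance : CompleteSpace L2 :=
  (inferInstance : CompleteSpace (Lp ℂ 2 (volume : Measure ℝ)))

/-- The function `ℝ → ℂ` (up to equality almost everywhere) behind an element of `L²(ℝ; ℂ)`. -/
noncomputable def fn (f : L2) : ℝ → ℂ :=
  ((show Lp ℂ 2 (volume : Measure ℝ) from f) : ℝ → ℂ)

/-- Bounded linear operators on `L²(ℝ; ℂ)`. -/
def Op : Type := L2 →L[ℂ] L2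

/-- The vector `A f`. -/
noncomputable def Op.app (A : Op) (f : L2) : L2 :=
  (show L2 →L[ℂ] L2 from A) f

/-- `R` is the resolvent `(-d²/dx² + V + c)⁻¹`: it maps `-χ'' + (V + c) χ` to `χ`, for every
Schwartz function `χ`. -/
def IsResolvent (V : ℝ → ℝ) (c : ℝ) (R : Op) : Prop :=
  ∀ (χ : 𝓢(ℝ, ℂ)) (f : L2),
    fn f =ᵐ[volume] (fun x => -(deriv (deriv (χ : ℝ → ℂ)) x) + ((V x + c : ℝ) : ℂ) * χ x) →
    fn (R.app f) =ᵐ[volume] (χ : ℝ → ℂ)

/-- `M` is the operator of multiplication by `v`. -/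
def IsMul (v : ℝ → ℝ) (M : Op) : Prop :=
  ∀ f : L2, fn (M.app f) =ᵐ[volume] (fun x => (v x : ℂ) * fn f x)

/-- `B` is the product `Q V` of the bounded operator `Q` and the multiplication by `V`, extended to
all of `L²`: `B f = Q (V f)` whenever `f ∈ L²` and `V f ∈ L²`. -/
def IsProduct (V : ℝ → ℝ) (Q B : Op) : Prop :=
  ∀ f g : L2, fn g =ᵐ[volume] (fun x => (V x : ℂ) * fn f x) → B.app f = Q.app g

/-- Smooth cutoff function: `1` for `|x| ≤ ρ`, `0` for `|x| ≥ 2ρ`. -/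
noncomputable def cutoff (ρ x : ℝ) : ℝ :=
  Real.cos ((Real.pi / 2) * Real.smoothTransition (|x| / ρ - 1))

/-- For every `ρ > 0` the operator `Θ T Θ`, `Θ` the multiplication by `cutoff ρ`, is trace class with
trace `t ρ`. -/
def LocalTraces (T : Op) (t : ℝ → ℝ) : Prop :=
  ∀ ρ : ℝ, 0 < ρ → ∃ Θ : Op, IsMul (cutoff ρ) Θ ∧ IsTraceClass (localise Θ T) ∧
    HasTrace (localise Θ T) (t ρ)

/-- The integrand of the right-hand side,
`(v-μ)_-^{γ+1/2} - μ^{γ+1/2} + (γ+1/2) μ^{γ-1/2} v`. -/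
noncomputable def F (γ μ v : ℝ) : ℝ :=
  (max (μ - v) 0) ^ (γ + 1 / 2) - μ ^ (γ + 1 / 2) + (γ + 1 / 2) * μ ^ (γ - 1 / 2) * v

/-- For every `γ > 1` there is `C` such that for all `μ > 0` and all real `V ∈ L²(ℝ)` whose
right-hand side is finite, and all large `c`: the resolvents `R`, `R₀` and the product
`B = (-Δ-μ)_-^{γ-1} V` exist and are unique, and the operator `T` inside the trace satisfies:
the localised operators `Θ_ρ T Θ_ρ` are trace class with real traces `t ρ`, and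
`limsup_{ρ → ∞} t ρ ≤ C ∫ F γ μ (V x) dx`; if `T` is trace class, its trace is the limit of `t ρ` and
at most `C ∫ F γ μ (V x) dx`; and `T` is trace class for `V ∈ C_c(ℝ)`. -/
theorem result : ∀ γ : ℝ, 1 < γ → ∃ C : ℝ, 0 < C ∧ ∀ μ : ℝ, 0 < μ → ∀ V : ℝ → ℝ,
    MemLp V 2 volume → Integrable (fun x => F γ μ (V x)) volume →
    ∃ c₀ : ℝ, ∀ c : ℝ, c₀ ≤ c →
      (∃! R : Op, IsResolvent V c R) ∧ (∃! R₀ : Op, IsResolvent (fun _ => 0) c R₀) ∧
      ∀ R R₀ : Op, IsResolvent V c R → IsResolvent (fun _ => 0) c R₀ →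
        IsNonneg R ∧ IsNonneg R₀ ∧ (∃! B : Op, IsProduct V (negPow (γ - 1) μ c R₀) B) ∧
        ∀ B : Op, IsProduct V (negPow (γ - 1) μ c R₀) B →
          ∃ t : ℝ → ℝ, LocalTraces (inside γ μ c R R₀ B) t ∧
            (∀ ε : ℝ, 0 < ε → ∀ᶠ ρ in atTop, t ρ ≤ C * (∫ x, F γ μ (V x)) + ε) ∧
            (IsTraceClass (inside γ μ c R R₀ B) → ∃ τ : ℝ, HasTrace (inside γ μ c R R₀ B) τ ∧
              Tendsto t atTop (nhds τ) ∧ τ ≤ C * ∫ x, F γ μ (V x)) ∧
            (Continuous V → HasCompactSupport V → IsTraceClass (inside γ μ c R R₀ B)) :=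
  Helper209.PL.main_l2_final

end Pool.Agent.Results.MP_1963ae_mp.PositiveDensityLTGeneral
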